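import Mathlib
import Pool.Agent.H117R2.UC.Defs

set_option autoImplicit false

/-!
# T07: symmetry and nonnegativity of the certificate `TA`
-/

namespace Pool.Agent.H144R2.UCT07

open Real Pool.Agent.H117R2.UC

theorem AH_comm (x y : ℝ) : AH x y = AH y x := by
  unfold AH
  rw [mul_comm x y]
  ring

theorem Gk_comm (x y : ℝ) : Gk x y = Gk y x := by
  unfold Gk
  have e1 : x * y = y * x := mul_comm x y
  have e2 : 1 / 2 + 3 / 2 * (x * y) - x - y = 1 / 2 + 3 / 2 * (y * x) - y - x := by ring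
  rw [e2, e1]
  ring

theorem TA_comm (x y : ℝ) : TA x y = TA y x := by
  unfold TA
  rw [AH_comm x y, Gk_comm x y]
  ring

theorem TA_nonneg
    (regionA : ∀ {x y : ℝ} (_hx0 : 9 / 20 ≤ x) (_hxy : x ≤ y) (_hy1 : y ≤ 1), 0 ≤ TA x y)
    (regionB : ∀ {x y : ℝ} (_hx0 : 0 ≤ x) (_hx1 : x ≤ 9 / 20) (_hxy : x ≤ y) (_hy1 : y ≤ 1),
      0 ≤ TA x y)
    {x y : ℝ} (hx0 : 0 ≤ x) (hx1 : x ≤ 1) (hy0 : 0 ≤ y) (hy1 : y ≤ 1) : 0 ≤ TA x y := by
  rcases le_total x y with h | h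
  · rcases le_total (9 / 20) x with h' | h'
    · exact regionA h' h hy1
    · exact regionB hx0 h' h hy1
  · rw [TA_comm]
    rcases le_total (9 / 20) y with h' | h'
    · exact regionA h' h hx1
    · exact regionB hy0 h' h hx1

end Pool.Agent.H144R2.UCT07
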